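import Pool.Agent.Lib.MP_79abb3_an.W.AsC
import Pool.Agent.Lib.MP_79abb3_an.W.EGz
import Pool.Agent.Lib.MP_79abb3_an.W.StmB

/-!
MP_79abb3_an, Q1 (Lions): small-time global exact null controllability of the Navier-Stokes system with Dirichlet
walls, in all smooth bounded connected domains of `ℝ^2` and `ℝ^3`, for every nonempty open part `Γ` of the boundary.
The definitions are in `Stm.lean`.
-/

set_option autoImplicit false

open MeasureTheory Set
open Pool.Agent.Lib.MP_79abb3_an.Stm

namespace Pool.Agent.Results.MP_79abb3_an.Dirichlet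

/-- **Small-time global exact null controllability of the Navier-Stokes system with Dirichlet walls.** For `d = 2` or
`d = 3`, a smooth bounded connected domain `Ω` of `ℝ^d`, a nonempty relatively open part `Γ` of `∂Ω`, every time `T > 0`
and every admissible initial datum `u₀ ∈ L²(Ω)` there is a weak trajectory `u` of the Navier-Stokes system on `[0,T]` with
`u = 0` on `∂Ω ∖ Γ`, `u(0) = u₀` and `u(T) = 0`. -/
theorem result (d : ℕ) (hd : d = 2 ∨ d = 3) (Ω Γ : Set (Rd d)) (hΩ : SmoothDomain Ω) (hΓ : OpenPart Ω Γ)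
    (T : ℝ) (hT : 0 < T) (u₀ : Rd d → Rd d) (hu₀ : Admissible Ω Γ u₀) :
    ∃ u : ℝ × Rd d → Rd d, Traj Ω Γ T u₀ u ∧ ∀ᵐ x ∂(volume.restrict Ω), u (T, x) = 0 :=
  final_of (Pool.Agent.Lib.MP_79abb3_an.W.theoremW_of_em Pool.Agent.Lib.MP_79abb3_an.W.em_all)
    d hd Ω Γ hΩ hΓ T hT u₀ hu₀

end Pool.Agent.Results.MP_79abb3_an.Dirichlet
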